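import Pool.Agent.V1155.PowSum4

set_option autoImplicit false

/-!
Power sums of all `d` by `d` matrices over an arbitrary finite ring, possibly noncommutative and
without identity.
-/

namespace Pool.Agent.Results.MP_0bd9b3_al.MatrixPowerSums

open Pool.Agent.V1155.PowSum

universe u

/-- The sum of the `k`-th powers of all `d` by `d` matrices over `R`, for `k ≥ 1`; here
`npw A (k - 1)` is the product of `k` factors `A`. -/
def powSum (R : Type u) [NonUnitalRing R] [Fintype R] (d k : ℕ) : Matrix (Fin d) (Fin d) R :=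
  ∑ A : Matrix (Fin d) (Fin d) R, npw A (k - 1)

theorem result (R : Type u) [NonUnitalRing R] [Fintype R] (d k : ℕ) (hd : 1 < d) (hk : 1 ≤ k) :
    (¬ (d = 2 ∧ (Fintype.card R % 4 = 2 ∧ 1 < k ∧ (k % 6 = 5 ∨ k % 6 = 0 ∨ k % 6 = 1)) ∧
        ∃ e : R, e ≠ 0 ∧ e + e = 0 ∧ e * e = e) → powSum R d k = 0) ∧
    ((Fintype.card R % 4 = 2 ∧ 1 < k ∧ (k % 6 = 5 ∨ k % 6 = 0 ∨ k % 6 = 1)) →
      ∀ e : R, e ≠ 0 → e + e = 0 → e * e = e →
        powSum R 2 k = Matrix.diagonal (fun _ => e)) := by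
  obtain ⟨n, rfl⟩ : ∃ n, k = n + 1 := ⟨k - 1, by omega⟩
  rw [← Nat.card_eq_fintype_card]
  unfold powSum
  rw [Nat.add_sub_cancel]
  refine ⟨fun h => main_zero hd n ?_, fun h e he0 hee he => main_exc n h.1 h.2 he0 hee he⟩
  rintro ⟨h1, h2, h3, h4⟩
  exact h ⟨h1, ⟨h2, h3⟩, h4⟩

end Pool.Agent.Results.MP_0bd9b3_al.MatrixPowerSums
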